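import Mathlib
import Pool.Agent.W757.RF.Defs

/-! Statements of the project Q2 (helper757, MP_8f2e1c_an): perturbation of indifferent cycles of
arbitrary rational maps (no attracting cycle is needed). Continues `Pool.Agent.W757.QR.St`. -/

set_option autoImplicit false

open Topology Filter Metric Set Polynomial MeasureTheory
open scoped OnePoint
open Pool.Agent.H790R3.RB (CV hF cr ND wr rt sp pr hc pol Sink Attd HypTop)
open Pool.Agent.W757.QR Pool.Agent.W757.RF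

namespace Pool.Agent.W757.Q2

/-- infinity is generic: it is not fixed, not critical and not a critical value -/
def Ginf (d : ℕ) (P Q : ℂ[X]) : Prop :=
  Q.natDegree = d ∧ (wn P Q).natDegree = 2 * d - 2 ∧ ∀ ζ : ℂ, Q.eval ζ = 0 → (wn P Q).eval ζ ≠ 0

/-- A quadratic differential with double poles at cycles which is invariant under push-forward
vanishes. -/
def StINJ2 : Prop :=
  ∀ (d : ℕ) (P Q : ℂ[X]) (Z : Finset ℂ) (a b : ℂ → ℂ) (wt : ℂ → ℝ), RM d P Q →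
    Cyc P Q Z → Ginf d P Q →
    (∀ z ∈ Z, 0 < wt z ∧ wt (fr P Q z) = ‖d1 P Q z‖ * wt z) →
    (∀ z ∈ Z, a (fr P Q z) = a z) →
    (∀ z ∈ Z, b (fr P Q z) = b z / d1 P Q z - a z * d2 P Q z / d1 P Q z ^ 2) →
    (∀ y : ℂ, y ∉ Z → Gv d P Q y → ∑ ζ ∈ pre P Q y, qd Z a b ζ / d1 P Q ζ ^ 2 = qd Z a b y) →
    ∀ z ∈ Z, a z = 0 ∧ b z = 0

/-- The linearized equations for the cycles and their multipliers can be solved. -/
def StSURL2 : Prop :=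
  ∀ (d : ℕ) (P Q : ℂ[X]) (Z : Finset ℂ), RM d P Q → Cyc P Q Z → Ginf d P Q → Indf P Q Z →
    ∀ e κ : ℂ → ℂ, (∀ z ∈ Z, κ (fr P Q z) = κ z) →
    ∃ (H : ℂ[X]) (u : ℂ → ℂ), H.natDegree ≤ 2 * d ∧
      (∀ z ∈ Z, u (fr P Q z) - d1 P Q z * u z - hv Q H z = e z) ∧
      ∀ z ∈ Z, ∑ i ∈ Finset.range (Function.minimalPeriod (fr P Q) z),
        (hd Q H ((fr P Q)^[i] z) + d2 P Q ((fr P Q)^[i] z) * u ((fr P Q)^[i] z)) /
          d1 P Q ((fr P Q)^[i] z) = κ z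

/-- Möbius coordinates in which infinity is generic and finitely many points are finite. -/
def StGENM : Prop :=
  ∀ (d : ℕ) (x : CV d) (Fs : Finset (OnePoint ℂ)), 2 ≤ d → ND x →
    ∃ (a b c e : ℂ) (h : OnePoint ℂ ≃ₜ OnePoint ℂ) (x₁ : CV d) (T : CV d → CV d),
      a * e - b * c ≠ 0 ∧ (∀ p : ℂ × ℂ, p ≠ 0 → h (pr p) = pr (a * p.1 + b * p.2, c * p.1 + e * p.2)) ∧
      ND x₁ ∧ (∀ z, h (sp x z) = sp x₁ (h z)) ∧ Ginf d (nu x₁) (de x₁) ∧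
      (∀ w ∈ Fs, h w ≠ ∞) ∧ Continuous T ∧ T x₁ = x ∧
      ∀ x' : CV d, ND x' → ND (T x') ∧ ∀ z, h (sp (T x') z) = sp x' (h z)

/-- `z` is in the basin of the parabolic periodic point `a` -/
def ParaA (f : OnePoint ℂ → OnePoint ℂ) (a z : OnePoint ℂ) : Prop :=
  ∃ p : ℕ, 0 < p ∧ HasMult f p a 1 ∧
    Tendsto (fun k : ℕ => f^[p * k] z) atTop (𝓝 a) ∧ ∀ k : ℕ, f^[p * k] z ≠ a

/-- `z` is mapped into a Siegel disc with centre `a` -/
def SiegA (f : OnePoint ℂ → OnePoint ℂ) (a z : OnePoint ℂ) : Prop :=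
  ∃ (n p : ℕ) (r : ℝ) (ρ : ℂ) (h : ℂ → OnePoint ℂ), 0 < p ∧ 0 < r ∧ ‖ρ‖ = 1 ∧
    (∀ m : ℕ, 0 < m → ρ ^ m ≠ 1) ∧ HolD h r ∧ InjOn h (ball 0 r) ∧
    (∀ w ∈ ball (0 : ℂ) r, f^[p] (h w) = h (ρ * w)) ∧ f^[n] z ∈ h '' ball 0 r ∧ h 0 = a

/-- Perturbations for which almost all points of the basins of finitely many indifferent cycles
become attracted. -/
def StPTW : Prop :=
  ∀ (d : ℕ) (x : CV d) (Zs : Finset (OnePoint ℂ)), 2 ≤ d → ND x →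
    ∃ (X : ℕ → CV d) (E : Set ℂ), Tendsto X atTop (𝓝 x) ∧ (∀ n, ND (X n)) ∧ E.Countable ∧
      ∀ z : ℂ, z ∉ E → (Attd (sp x) (z : OnePoint ℂ) ∨
        ∃ a ∈ Zs, ParaA (sp x) a (z : OnePoint ℂ) ∨ SiegA (sp x) a (z : OnePoint ℂ)) →
        ∀ᶠ n in atTop, Attd (sp (X n)) (z : OnePoint ℂ)

/-- Every rational map is a limit of maps whose non-attracted area is not larger than the area of
its Julia set and Herman rings. -/
def StAPX2 : Prop :=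
  ∀ (d : ℕ) (x : CV d), 2 ≤ d → ND x → ∀ ε : ℝ, 0 < ε →
    ∃ x' : CV d, ‖x' - x‖ < ε ∧ ND x' ∧ sarea {z : ℂ | ¬ Attd (sp x') (z : OnePoint ℂ)} ≤
      sarea (JS (sp x)) + ENNReal.ofReal ε

end Pool.Agent.W757.Q2
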